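import Mathlib
import Pool.Agent.H63Fed.Miranda

/-!
# Two points of a fixed-point free flow that no factor of small entropy separates

Let `Lip` be the space of the `1`-Lipschitz functions `ℝ → [0, 1]` with the compact-open topology,
a compact metrizable space, on which `ℝ` acts by translations. The product with the rotation flow on
the circle `ℝ / ℤ` is fixed-point free. Let `w`, `w'` be the points given by the constant functions
`0` and `1` and the point `0` of the circle.

If a factor map `π` to a flow on `Y` separates `w` and `w'`, choose a continuous function `u` on `Y`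
with `u (π w) < u (π w')`. There is an `N` such that `u (π (f, 0))` is close to `u (π w)` if `f = 0`
on `[-N, N]` and close to `u (π w')` if `f = 1` on `[-N, N]`. Let `L = 2 N + 1`. For `c` in the cube
`[0, 1] ^ n` let `f c` be a function that is equal to `c j` on `[L j - N, L j + N]`. By the theorem of
Poincaré and Miranda the vector of the values of `u ∘ π` along the orbit of `(f c, 0)`, at the times
`0, L, …, (n - 1) L`, takes all values in a fixed cube when `c` varies. So for each `m` there
are `m ^ n` orbits which are separated at these times by a distance independent of `n`, and the entropy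
of the time one map of `Y` is at least `(log m) / L`, where `L` does not depend on `m`.
-/

set_option autoImplicit false

open Dynamics Set Filter Topology UniformSpace ExpGrowth
open scoped unitInterval NNReal ENNReal

namespace Pool.Agent.Results.MP_54b048_an.InfiniteEntropyPair

universe v

/-! ### The flow -/

/-- The space of the `1`-Lipschitz functions from `ℝ` to `[0, 1]`. -/
abbrev Lip : Type := {f : C(ℝ, I) // LipschitzWith 1 f}

/-- Translation of a function. -/
def shift (t : ℝ) (f : Lip) : Lip :=
  ⟨f.1.comp ⟨fun x => x + t, by fun_prop⟩, by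
    have h : LipschitzWith 1 (fun x : ℝ => x + t) :=
      LipschitzWith.of_dist_le_mul fun x y => by simp
    have := f.2.comp h
    simpa using this⟩

theorem shift_apply (t : ℝ) (f : Lip) (x : ℝ) : (shift t f).1 x = f.1 (x + t) := rfl

theorem continuous_shift : Continuous fun p : ℝ × Lip => shift p.1 p.2 := by
  refine Continuous.subtype_mk (ContinuousMap.continuous_of_continuous_uncurry _ ?_) _
  change Continuous fun q : (ℝ × Lip) × ℝ => q.1.2.1 (q.2 + q.1.1)
  fun_prop

instance : CompactSpace Lip := by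
  refine isCompact_iff_compactSpace.1 ?_
  refine ArzelaAscoli.isCompact_of_equicontinuous {f : C(ℝ, I) | LipschitzWith 1 f} ?_ ?_
  · have h1 : ContinuousMap.toFun '' {f : C(ℝ, I) | LipschitzWith 1 f} =
        {f : ℝ → I | LipschitzWith 1 f} := by
      ext f
      constructor
      · rintro ⟨g, hg, rfl⟩
        exact hg
      · intro hf
        exact ⟨⟨f, LipschitzWith.continuous hf⟩, hf, rfl⟩
    rw [h1]
    exact (isClosed_setOfPred_lipschitzWith 1).isCompact
  · exact LipschitzWith.uniformEquicontinuous _ 1 (fun f => f.2) |>.equicontinuous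

instance : TopologicalSpace.MetrizableSpace Lip :=
  (Topology.IsEmbedding.subtypeVal : Topology.IsEmbedding
    (Subtype.val : Lip → C(ℝ, I))).metrizableSpace

/-- The flow: translations on the space of `1`-Lipschitz functions, times the rotation flow on the
circle `ℝ / ℤ`. -/
noncomputable def flow : Flow ℝ (Lip × UnitAddCircle) where
  toFun t p := (shift t p.1, p.2 + (t : UnitAddCircle))
  cont' := by
    have h1 : Continuous fun q : ℝ × (Lip × UnitAddCircle) => shift q.1 q.2.1 :=
      continuous_shift.comp (continuous_fst.prodMk (continuous_fst.comp continuous_snd))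
    have h2 : Continuous fun q : ℝ × (Lip × UnitAddCircle) => q.2.2 + (q.1 : UnitAddCircle) :=
      (continuous_snd.comp continuous_snd).add
        ((AddCircle.continuous_mk' (1 : ℝ)).comp continuous_fst)
    exact h1.prodMk h2
  map_add' := by
    intro s t p
    refine Prod.ext (Subtype.ext (ContinuousMap.ext fun x => ?_)) ?_
    · change p.1.1 (x + (s + t)) = p.1.1 (x + s + t)
      rw [add_assoc]
    · change p.2 + ((s + t : ℝ) : UnitAddCircle) = p.2 + (t : UnitAddCircle) + (s : UnitAddCircle)
      rw [AddCircle.coe_add]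
      abel
  map_zero' := by
    intro p
    refine Prod.ext (Subtype.ext (ContinuousMap.ext fun x => ?_)) ?_
    · change p.1.1 (x + 0) = p.1.1 x
      rw [add_zero]
    · change p.2 + ((0 : ℝ) : UnitAddCircle) = p.2
      simp

theorem flow_apply (t : ℝ) (p : Lip × UnitAddCircle) :
    flow t p = (shift t p.1, p.2 + (t : UnitAddCircle)) := rfl

/-- The constant functions. -/
def cst (a : I) : Lip := ⟨ContinuousMap.const ℝ a, LipschitzWith.const' a⟩

/-! ### Functions with prescribed values on blocks -/

/-- A `1`-Lipschitz function equal to `c j` at the distance at most `N` from `L j`. -/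
noncomputable def blk (L N : ℝ) {n : ℕ} (c : Fin n → ℝ) (x : ℝ) : ℝ :=
  (Finset.univ : Finset (Fin n)).fold max 0
    (fun j => min 1 (c j) - max 0 (|x - L * (j : ℕ)| - N))

theorem blk_nonneg (L N : ℝ) {n : ℕ} (c : Fin n → ℝ) (x : ℝ) : 0 ≤ blk L N c x := by
  unfold blk
  rw [Finset.le_fold_max]
  exact Or.inl le_rfl

theorem blk_le_one (L N : ℝ) {n : ℕ} (c : Fin n → ℝ) (x : ℝ) : blk L N c x ≤ 1 := by
  unfold blk
  rw [Finset.fold_max_le]
  refine ⟨zero_le_one, fun j _ => ?_⟩
  have h1 : min 1 (c j) ≤ 1 := min_le_left _ _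
  have h2 : 0 ≤ max 0 (|x - L * (j : ℕ)| - N) := le_max_left _ _
  linarith

theorem blk_lip (L N : ℝ) {n : ℕ} (c : Fin n → ℝ) (x y : ℝ) :
    blk L N c x ≤ blk L N c y + |x - y| := by
  conv_lhs => unfold blk
  rw [Finset.fold_max_le]
  refine ⟨add_nonneg (blk_nonneg L N c y) (abs_nonneg _), fun j _ => ?_⟩
  have h1 : min 1 (c j) - max 0 (|y - L * (j : ℕ)| - N) ≤ blk L N c y := by
    unfold blk
    rw [Finset.le_fold_max]
    exact Or.inr ⟨j, Finset.mem_univ j, le_rfl⟩
  have h2 : |y - L * (j : ℕ)| ≤ |x - L * (j : ℕ)| + |x - y| := by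
    have h3 : y - L * (j : ℕ) = (x - L * (j : ℕ)) - (x - y) := by ring
    rw [h3]
    exact abs_sub _ _
  have h3 : max 0 (|y - L * (j : ℕ)| - N) ≤ max 0 (|x - L * (j : ℕ)| - N) + |x - y| := by
    apply max_le
    · exact add_nonneg (le_max_left _ _) (abs_nonneg _)
    · have := le_max_right 0 (|x - L * (j : ℕ)| - N)
      linarith
  linarith

theorem blk_eq {L N : ℝ} (hL : 2 * N + 1 ≤ L) {n : ℕ} {c : Fin n → ℝ}
    (hc : ∀ j, 0 ≤ c j ∧ c j ≤ 1) (i : Fin n) {x : ℝ} (hx : |x - L * (i : ℕ)| ≤ N) :
    blk L N c x = c i := by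
  have hN : 0 ≤ N := (abs_nonneg _).trans hx
  unfold blk
  apply le_antisymm
  · rw [Finset.fold_max_le]
    refine ⟨(hc i).1, fun j _ => ?_⟩
    rcases eq_or_ne j i with rfl | hji
    · have h1 : min 1 (c j) ≤ c j := min_le_right _ _
      have h2 : 0 ≤ max 0 (|x - L * (j : ℕ)| - N) := le_max_left _ _
      linarith
    · have h1 : min 1 (c j) ≤ 1 := min_le_left _ _
      have h2 : L ≤ |L * (j : ℕ) - L * (i : ℕ)| := by
        rw [← mul_sub, abs_mul, abs_of_nonneg (by linarith : (0 : ℝ) ≤ L)]
        have h3 : (1 : ℝ) ≤ |((j : ℕ) : ℝ) - ((i : ℕ) : ℝ)| := by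
          have h4 : (1 : ℤ) ≤ |((j : ℕ) : ℤ) - ((i : ℕ) : ℤ)| := by
            apply Int.one_le_abs
            rw [sub_ne_zero]
            intro h5
            exact hji (Fin.ext (by exact_mod_cast h5))
          exact_mod_cast h4
        nlinarith
      have h3 : |L * (j : ℕ) - L * (i : ℕ)| ≤ |x - L * (j : ℕ)| + |x - L * (i : ℕ)| := by
        have h4 : L * (j : ℕ) - L * (i : ℕ) = (x - L * (i : ℕ)) - (x - L * (j : ℕ)) := by ring
        rw [h4, add_comm]
        exact abs_sub _ _
      have h4 := le_max_right 0 (|x - L * (j : ℕ)| - N)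
      have h5 := (hc i).1
      linarith
  · rw [Finset.le_fold_max]
    refine Or.inr ⟨i, Finset.mem_univ i, ?_⟩
    rw [max_eq_left (by linarith), min_eq_right (hc i).2, sub_zero]

theorem continuous_blk (L N : ℝ) (n : ℕ) :
    Continuous fun p : (Fin n → ℝ) × ℝ => blk L N p.1 p.2 := by
  unfold blk
  induction (Finset.univ : Finset (Fin n)) using Finset.induction_on with
  | empty => simpa using continuous_const
  | insert a s ha ih =>
    simp only [Finset.fold_insert ha]
    refine Continuous.max ?_ ih
    fun_prop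

/-- The function with the value `c j` on the interval of the radius `N` about `L j`. -/
noncomputable def blkLip (L N : ℝ) {n : ℕ} (c : Fin n → ℝ) : Lip :=
  ⟨⟨fun x => ⟨blk L N c x, blk_nonneg L N c x, blk_le_one L N c x⟩, by
    have h := (continuous_blk L N n).comp (by fun_prop : Continuous fun x : ℝ => (c, x))
    exact Continuous.subtype_mk h _⟩, by
    refine LipschitzWith.of_dist_le_mul fun x y => ?_
    rw [Subtype.dist_eq, Real.dist_eq, Real.dist_eq, NNReal.coe_one, one_mul, abs_le]
    have h1 := blk_lip L N c x y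
    have h2 := blk_lip L N c y x
    rw [abs_sub_comm y x] at h2
    constructor
    · change -|x - y| ≤ blk L N c x - blk L N c y
      linarith
    · change blk L N c x - blk L N c y ≤ |x - y|
      linarith⟩

theorem continuous_blkLip (L N : ℝ) (n : ℕ) : Continuous fun c : Fin n → ℝ => blkLip L N c := by
  refine Continuous.subtype_mk (ContinuousMap.continuous_of_continuous_uncurry _ ?_) _
  exact Continuous.subtype_mk (continuous_blk L N n) _

/-! ### Neighbourhoods of the constant functions -/

/-- A neighbourhood of a constant function contains all functions with the same value on a large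
interval. -/
theorem exists_window (a : I) {V : Set Lip} (hV : V ∈ 𝓝 (cst a)) :
    ∃ N : ℝ, ∀ f : Lip, (∀ x : ℝ, |x| ≤ N → f.1 x = a) → f ∈ V := by
  obtain ⟨W, hW, hWV⟩ := (mem_nhds_subtype _ _ _).1 hV
  obtain ⟨⟨K, U⟩, ⟨hK, hU⟩, hKU⟩ :=
    ((𝓝 a).basis_sets.nhds_continuousMapConst (X := ℝ)).mem_iff.1 hW
  obtain ⟨N, hN⟩ := hK.isBounded.subset_closedBall 0
  refine ⟨N, fun f hf => hWV (hKU ?_)⟩
  intro x hx
  have h1 := hN hx
  rw [mem_closedBall_zero_iff, Real.norm_eq_abs] at h1
  rw [hf x h1]
  exact mem_of_mem_nhds hU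

/-! ### Orbits with prescribed values -/

theorem iterate_one {Y : Type v} [TopologicalSpace Y] (ψ : Flow ℝ Y) (k : ℕ) (y : Y) :
    (ψ 1)^[k] y = ψ (k : ℝ) y := by
  induction k with
  | zero => simp [ψ.map_zero']
  | succ k ih =>
    rw [Function.iterate_succ_apply', ih, ← ψ.map_add]
    push_cast
    rw [add_comm]

theorem exists_orbit {g : Lip → ℝ} (hg : Continuous g) {a b : ℝ} (ha : g (cst 0) < a)
    (hb : b < g (cst 1)) :
    ∃ N : ℕ, ∀ (n : ℕ) (τ : Fin n → ℝ), (∀ j, a ≤ τ j ∧ τ j ≤ b) →
      ∃ f : Lip, ∀ j : Fin n, g (shift (((2 * N + 1 : ℕ) : ℝ) * (j : ℕ)) f) = τ j := by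
  obtain ⟨N0, hN0⟩ := exists_window 0 (hg.continuousAt.eventually_lt_const ha)
  obtain ⟨N1, hN1⟩ := exists_window 1 (hg.continuousAt.eventually_const_lt hb)
  obtain ⟨N, hN⟩ := exists_nat_ge (max N0 N1)
  have hN0' : N0 ≤ N := (le_max_left _ _).trans hN
  have hN1' : N1 ≤ N := (le_max_right _ _).trans hN
  refine ⟨N, fun n τ hτ => ?_⟩
  set L : ℝ := ((2 * N + 1 : ℕ) : ℝ) with hLdef
  have hL : 2 * (N : ℝ) + 1 ≤ L := by rw [hLdef]; push_cast; exact le_rfl
  have hval : ∀ (c : Fin n → ℝ), (∀ j, 0 ≤ c j ∧ c j ≤ 1) → ∀ (j : Fin n) (x : ℝ),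
      |x| ≤ N → (((shift (L * (j : ℕ)) (blkLip L N c)).1 x : I) : ℝ) = c j := by
    intro c hc j x hx
    change blk L N c (x + L * (j : ℕ)) = c j
    exact blk_eq hL hc j (by simpa using hx)
  obtain ⟨c, hc, hF⟩ := H63Fed.Miranda.poincare_miranda n
    (fun c j => g (shift (L * (j : ℕ)) (blkLip L N c)) - τ j)
    (by
      apply Continuous.continuousOn
      refine continuous_pi fun j => Continuous.sub (hg.comp ?_) continuous_const
      exact continuous_shift.comp (continuous_const.prodMk (continuous_blkLip L N n)))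
    (by
      intro c hc j hcj
      have h1 := hN0 (shift (L * (j : ℕ)) (blkLip L N c)) (fun x hx => by
        apply Subtype.ext
        rw [hval c hc j x (hx.trans hN0'), hcj]
        rfl)
      have h2 : g (shift (L * (j : ℕ)) (blkLip L N c)) < a := h1
      have h3 := (hτ j).1
      linarith)
    (by
      intro c hc j hcj
      have h1 := hN1 (shift (L * (j : ℕ)) (blkLip L N c)) (fun x hx => by
        apply Subtype.ext
        rw [hval c hc j x (hx.trans hN1'), hcj]
        rfl)
      have h2 : b < g (shift (L * (j : ℕ)) (blkLip L N c)) := h1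
      have h3 := (hτ j).2
      linarith)
  refine ⟨blkLip L N c, fun j => ?_⟩
  have := congrFun hF j
  simp only [Pi.zero_apply] at this
  linarith

/-! ### Entropy -/

theorem entropy_top {Y : Type v} [MetricSpace Y] [CompactSpace Y] (ψ : Flow ℝ Y)
    (π : Lip × UnitAddCircle → Y) (hπ : Flow.IsSemiconjugacy π flow ψ)
    (hne : π (cst 0, 0) ≠ π (cst 1, 0)) : coverEntropy (ψ 1) univ = ⊤ := by
  classical
  set D : ℝ := dist (π (cst 1, 0)) (π (cst 0, 0)) with hD
  have hDpos : 0 < D := dist_pos.2 hne.symm
  set u : Y → ℝ := fun y => dist y (π (cst 0, 0)) with hu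
  have hulip : ∀ y z, |u y - u z| ≤ dist y z := fun y z => abs_dist_sub_le y z _
  set g : Lip → ℝ := fun f => u (π (f, 0)) with hgdef
  have hg : Continuous g := by
    have h1 : Continuous fun f : Lip => π (f, 0) := hπ.cont.comp (by fun_prop)
    exact h1.dist continuous_const
  have hg0 : g (cst 0) < D / 4 := by
    have : g (cst 0) = 0 := dist_self _
    rw [this]; positivity
  have hg1 : 3 * D / 4 < g (cst 1) := by
    have : g (cst 1) = D := rfl
    rw [this]; linarith
  obtain ⟨N, hN⟩ := exists_orbit hg hg0 hg1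
  set L : ℕ := 2 * N + 1 with hL
  have hLpos : 0 < L := by omega
  -- the values of `u` along the orbits
  have horb : ∀ (f : Lip) (j : ℕ), u ((ψ 1)^[L * j] (π (f, 0))) = g (shift ((L : ℝ) * j) f) := by
    intro f j
    rw [iterate_one, ← hπ.semiconj, flow_apply, hgdef]
    simp only
    have h1 : (0 : UnitAddCircle) + (((L * j : ℕ) : ℝ) : UnitAddCircle) = 0 := by
      rw [zero_add, AddCircle.coe_eq_zero_iff]
      exact ⟨((L * j : ℕ) : ℤ), by simp⟩
    rw [h1]
    push_cast
    rfl
  -- a lower bound for each `m`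
  have key : ∀ m : ℕ, 1 ≤ m →
      ENNReal.log (m : ℝ≥0∞) ≤ ((L : ℕ) : EReal) * coverEntropy (ψ 1) univ := by
    intro m hm
    have hmR : (0 : ℝ) < m := by exact_mod_cast hm
    set ε : ℝ := D / (4 * m) with hε
    have hεpos : 0 < ε := by positivity
    set U : SetRel Y Y := {p : Y × Y | dist p.1 p.2 < ε} with hU
    have hUmem : U ∈ uniformity Y := Metric.dist_mem_uniformity hεpos
    have hcount : ∀ n : ℕ, ((m : ℝ≥0∞) ^ n) ≤ ((netMaxcard (ψ 1) univ U (L * n) : ℕ∞) : ℝ≥0∞) := by
      intro n
      -- the targets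
      have hτ : ∀ a : Fin n → Fin m, ∀ j, D / 4 ≤ D / 4 + D / 2 * ((a j : ℕ) / m) ∧
          D / 4 + D / 2 * ((a j : ℕ) / m) ≤ 3 * D / 4 := by
        intro a j
        have h1 : (0 : ℝ) ≤ ((a j : ℕ) : ℝ) / m := by positivity
        have h2 : ((a j : ℕ) : ℝ) / m ≤ 1 := by
          rw [div_le_one hmR]
          exact_mod_cast (a j).2.le
        constructor <;> nlinarith
      choose f hf using fun a : Fin n → Fin m => hN n _ (hτ a)
      have hval : ∀ (a : Fin n → Fin m) (j : Fin n), u ((ψ 1)^[L * (j : ℕ)] (π (f a, 0))) =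
          D / 4 + D / 2 * ((a j : ℕ) / m) := by
        intro a j
        rw [horb]
        exact hf a j
      have hsep : ∀ a b : Fin n → Fin m, ∀ z : Y,
          z ∈ ball (π (f a, 0)) (dynEntourage (ψ 1) U (L * n)) →
          z ∈ ball (π (f b, 0)) (dynEntourage (ψ 1) U (L * n)) → a = b := by
        intro a b z hza hzb
        rw [mem_ball_dynEntourage] at hza hzb
        funext j
        have hj : L * (j : ℕ) < L * n := Nat.mul_lt_mul_of_pos_left j.2 hLpos
        have h1 : dist ((ψ 1)^[L * (j : ℕ)] (π (f a, 0))) ((ψ 1)^[L * (j : ℕ)] z) < ε := hza _ hj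
        have h2 : dist ((ψ 1)^[L * (j : ℕ)] (π (f b, 0))) ((ψ 1)^[L * (j : ℕ)] z) < ε := hzb _ hj
        have h3 := (hulip _ _).trans_lt h1
        have h4 := (hulip _ _).trans_lt h2
        rw [hval] at h3 h4
        rw [abs_lt] at h3 h4
        have h5 : |D / 2 * (((a j : ℕ) : ℝ) / m) - D / 2 * (((b j : ℕ) : ℝ) / m)| < 2 * ε := by
          rw [abs_lt]; constructor <;> linarith
        have h6 : D / 2 * (((a j : ℕ) : ℝ) / m) - D / 2 * (((b j : ℕ) : ℝ) / m) =
            2 * ε * (((a j : ℕ) : ℝ) - ((b j : ℕ) : ℝ)) := by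
          rw [hε]; field_simp; ring
        rw [h6, abs_mul, abs_of_pos (by positivity : (0 : ℝ) < 2 * ε)] at h5
        have h7 : |((a j : ℕ) : ℝ) - ((b j : ℕ) : ℝ)| < 1 := by
          by_contra hcon
          push Not at hcon
          have : 2 * ε * 1 ≤ 2 * ε * |((a j : ℕ) : ℝ) - ((b j : ℕ) : ℝ)| :=
            mul_le_mul_of_nonneg_left hcon (by positivity)
          linarith
        have h8 : |((a j : ℕ) : ℤ) - ((b j : ℕ) : ℤ)| < 1 := by exact_mod_cast h7
        apply Fin.ext
        rw [Int.abs_lt_one_iff] at h8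
        omega
      have hball : ∀ y : Y, y ∈ ball y (dynEntourage (ψ 1) U (L * n)) := by
        intro y
        rw [mem_ball_dynEntourage]
        intro k _
        change dist _ _ < ε
        rw [dist_self]
        exact hεpos
      have hinj : Function.Injective fun a : Fin n → Fin m => π (f a, 0) := by
        intro a b hab
        refine hsep a b (π (f a, 0)) (hball _) ?_
        have : π (f a, 0) = π (f b, 0) := hab
        rw [this]
        exact hball _
      have hnet : IsDynNetIn (ψ 1) univ U (L * n)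
          ((Finset.univ.image fun a : Fin n → Fin m => π (f a, 0) : Finset Y) : Set Y) := by
        refine ⟨subset_univ _, ?_⟩
        intro y hy z hz hyz
        rw [Finset.mem_coe, Finset.mem_image] at hy hz
        obtain ⟨a, -, rfl⟩ := hy
        obtain ⟨b, -, rfl⟩ := hz
        refine Set.disjoint_left.2 fun w hw1 hw2 => hyz ?_
        rw [hsep a b w hw1 hw2]
      have h1 := hnet.card_le_netMaxcard
      rw [Finset.card_image_of_injective _ hinj, Finset.card_univ, Fintype.card_fun,
        Fintype.card_fin, Fintype.card_fin] at h1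
      have h2 := ENat.toENNReal_mono h1
      simpa using h2
    have hmono : Monotone fun n : ℕ => ((netMaxcard (ψ 1) univ U n : ℕ∞) : ℝ≥0∞) :=
      fun a b hab => ENat.toENNReal_mono (netMaxcard_monotone_time (ψ 1) univ U hab)
    have h1 := hmono.expGrowthSup_comp_mul (m := L) hLpos.ne'
    have h2 : expGrowthSup (fun n => (m : ℝ≥0∞) ^ n) ≤
        expGrowthSup ((fun n : ℕ => ((netMaxcard (ψ 1) univ U n : ℕ∞) : ℝ≥0∞)) ∘ fun n => L * n) :=
      expGrowthSup_monotone hcount
    rw [expGrowthSup_pow] at h2
    refine h2.trans (h1.le.trans ?_)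
    exact mul_le_mul_of_nonneg_left (netEntropyEntourage_le_coverEntropy (ψ 1) univ hUmem)
      (by positivity)
  have hexp : EReal.exp (((L : ℕ) : EReal) * coverEntropy (ψ 1) univ) = ⊤ := by
    refine ENNReal.eq_top_of_forall_nnreal_le fun r => ?_
    obtain ⟨m, hm⟩ := exists_nat_ge (max r 1)
    have hm1 : (1 : ℝ≥0) ≤ m := (le_max_right _ _).trans hm
    have h1 := EReal.exp_monotone (key m (by exact_mod_cast hm1))
    rw [ENNReal.exp_log] at h1
    refine le_trans ?_ h1
    have : r ≤ (m : ℝ≥0) := (le_max_left _ _).trans hm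
    exact_mod_cast this
  rw [EReal.exp_eq_top_iff, EReal.mul_eq_top] at hexp
  rcases hexp with h | h | h | h
  · exact absurd h.1 (EReal.natCast_ne_bot L)
  · exact absurd h.1 (by simp [not_lt])
  · exact absurd h.1 (EReal.natCast_ne_top L)
  · exact h.2

/-- **Two points that no flow factor of finite entropy separates.** There are a compact metrizable
space `X`, a fixed-point free flow `φ` on `X` and two points `w ≠ w'` such that every factor map `π`
to a flow `ψ` on a compact metrizable space `Y` with `π w ≠ π w'` has infinite topological entropy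
(the entropy of the time one map `ψ 1`). -/
theorem result :
    ∃ (X : Type) (_ : TopologicalSpace X) (_ : CompactSpace X)
      (_ : TopologicalSpace.MetrizableSpace X) (φ : Flow ℝ X) (w w' : X),
      (∀ x, ∃ t, φ t x ≠ x) ∧ w ≠ w' ∧
      ∀ (Y : Type v) [MetricSpace Y] [CompactSpace Y] (ψ : Flow ℝ Y) (π : X → Y),
        Flow.IsSemiconjugacy π φ ψ → π w ≠ π w' → coverEntropy (ψ 1) univ = ⊤ := by
  refine ⟨Lip × UnitAddCircle, inferInstance, inferInstance, inferInstance, flow, (cst 0, 0),
    (cst 1, 0), fun x => ⟨1 / 2, ?_⟩, ?_, fun Y _ _ ψ π hπ hne => entropy_top ψ π hπ hne⟩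
  · intro h
    have h1 := congrArg Prod.snd h
    rw [flow_apply] at h1
    simp only [add_eq_left] at h1
    rw [AddCircle.coe_eq_zero_iff] at h1
    obtain ⟨n, hn⟩ := h1
    have h2 : (n : ℝ) = 1 / 2 := by simpa using hn
    have h3 : (2 * n : ℝ) = 1 := by linarith
    have h4 : 2 * n = 1 := by exact_mod_cast h3
    omega
  · intro h
    have h1 := congrArg (fun p : Lip × UnitAddCircle => p.1.1 0) h
    have h2 : (0 : I) = 1 := h1
    exact zero_ne_one h2

end Pool.Agent.Results.MP_54b048_an.InfiniteEntropyPair
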